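import Mathlib
import Pool.Agent.Helper56_WM.Defs

/-!
# The Turing invariant set of a family of meager sets
-/

set_option autoImplicit false

namespace Pool.Agent.Helper56WC

open Pool.Agent.Helper56WM

/-- the set of all points `x` of `E` such that `y` captures the set `h x` -/
def Reach (E : Set (ℕ → Bool)) (h : (ℕ → Bool) → Set (ℕ → Bool)) (y : ℕ → Bool) :
    Set (ℕ → Bool) := {x ∈ E | Captures y (h x)}

/-- the set of all `y` that do not capture `Reach E h y` -/
def Uncovered (E : Set (ℕ → Bool)) (h : (ℕ → Bool) → Set (ℕ → Bool)) : Set (ℕ → Bool) :=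
  {y | ¬ Captures y (Reach E h y)}

end Pool.Agent.Helper56WC
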