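import Mathlib
import Pool.Agent.Helper56_WC.Defs
import Pool.Agent.Helper56_WM.Dominate
import Pool.Agent.Helper56_WN.Avoid

/-!
# A real that captures countably many given meager sets, but avoids a given sigma-compact set
-/

set_option autoImplicit false

namespace Pool.Agent.Helper56WC

open Pool.Agent.Helper25TD Pool.Agent.Helper55AX Pool.Agent.Helper56WM
open Pool.Agent.Helper56WN (exists_hull fusion_limit)

/-- the functional `c` with oracle `join z (gr H)` has the value `u` at `n` -/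
def Val (z : ℕ → Bool) (c : OCode) (H : ℕ → List Bool) (n : ℕ) (u : List Bool) :
    Prop := Encodable.encode u ∈ eval (chi (join z (gr H))) c n

theorem Val.unique {z : ℕ → Bool} {c : OCode} {H : ℕ → List Bool} {n : ℕ}
    {u v : List Bool} (hu : Val z c H n u) (hv : Val z c H n v) : u = v :=
  Encodable.encode_injective (Part.mem_unique hu hv)

/-- the value of the functional -/
noncomputable def V (z : ℕ → Bool) (c : OCode) (H : ℕ → List Bool) (n : ℕ) : List Bool := by
  classical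
  exact if h : ∃ u, Val z c H n u then h.choose else []

theorem V_eq {z : ℕ → Bool} {c : OCode} {H : ℕ → List Bool} {n : ℕ}
    {u : List Bool} (h : Val z c H n u) : V z c H n = u := by
  classical
  have h1 : ∃ u, Val z c H n u := ⟨u, h⟩
  unfold V
  rw [dif_pos h1, h1.choose_spec.unique h]

theorem V_none {z : ℕ → Bool} {c : OCode} {H : ℕ → List Bool} {n : ℕ}
    (h : ¬ ∃ u, Val z c H n u) : V z c H n = [] := by
  classical
  unfold V
  rw [dif_neg h]

theorem Val.exists_use {z : ℕ → Bool} {c : OCode} {H : ℕ → List Bool} {n : ℕ}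
    {u : List Bool} (h : Val z c H n u) :
    ∃ N, ∀ H' : ℕ → List Bool, (∀ k < N, H' k = H k) → Val z c H' n u := by
  obtain ⟨N, hN⟩ := use_principle _ c _ _ h
  refine ⟨N, fun H' hH' => hN _ fun i hi => ?_⟩
  unfold join
  split_ifs
  · rfl
  · exact gr_congr (n := N) hH' (by omega)

/-! ### conditions -/

/-- `H` agrees with `h` below `d` -/
def AgreeB (d : ℕ) (h H : ℕ → List Bool) : Prop := ∀ k < d, H k = h k

/-- from `d` on, the strings of `H` contain those of `P` -/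
def Allow (P : ℕ → List Bool) (d : ℕ) (H : ℕ → List Bool) : Prop :=
  ∀ k ≥ d, Inside P k (H k)

theorem Allow.mono {P H : ℕ → List Bool} {d d' : ℕ} (h : Allow P d H) (hd : d ≤ d') :
    Allow P d' H := fun k hk => h k (hd.trans hk)

theorem Allow.patch {P h H : ℕ → List Bool} {d d' : ℕ} (h1 : Allow P d h)
    (h2 : AgreeB d' h H) (h3 : Allow P d' H) : Allow P d H := by
  intro k hk
  rcases Nat.lt_or_ge k d' with h4 | h4
  · rw [h2 k h4]
    exact h1 k hk
  · exact h3 k h4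

/-- all values of all functionals are decided by a finite part of `h` -/
def Dec (z : ℕ → Bool) (P h : ℕ → List Bool) : Prop :=
  ∀ c n, ∃ d, Allow P d h ∧ ∀ H', AgreeB d h H' → Allow P d H' → V z c H' n = V z c h n

theorem dec_step (z : ℕ → Bool) {P h : ℕ → List Bool} {κ κ' : ℕ} (hκ : κ ≤ κ')
    (hh : Allow P κ h) (c : OCode) (n : ℕ) :
    ∃ h' κ'', κ' < κ'' ∧ AgreeB κ' h h' ∧ Allow P κ h' ∧
      ∀ H', AgreeB κ'' h' H' → Allow P κ'' H' → V z c H' n = V z c h' n := by
  by_cases h1 : ∃ H u, AgreeB κ' h H ∧ Allow P κ' H ∧ Val z c H n u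
  · obtain ⟨H, u, h2, h3, h4⟩ := h1
    obtain ⟨N, hN⟩ := h4.exists_use
    refine ⟨H, max (κ' + 1) N, by omega, h2, hh.patch h2 h3, fun H' h5 _ => ?_⟩
    rw [V_eq h4, V_eq (hN H' fun k hk => h5 k (hk.trans_le (le_max_right _ _)))]
  · push Not at h1
    refine ⟨h, κ' + 1, by omega, fun _ _ => rfl, hh, fun H' h5 h6 => ?_⟩
    have h7 : AgreeB κ' h H' := fun k hk => h5 k (hk.trans (Nat.lt_succ_self _))
    have h8 : Allow P κ' H' := (hh.mono hκ).patch h5 h6
    rw [V_none fun ⟨u, hu⟩ => h1 H' u h7 h8 hu,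
      V_none fun ⟨u, hu⟩ => h1 h u (fun _ _ => rfl) (hh.mono hκ) hu]

theorem exists_ext (z : ℕ → Bool) (P h : ℕ → List Bool) (κ : ℕ) :
    ∃ g, AgreeB κ h g ∧ Allow P κ g ∧ Dec z P g := by
  classical
  obtain ⟨e, he⟩ : ∃ e : ℕ → OCode × ℕ, Function.Surjective e := by
    have : Nonempty (OCode × ℕ) := ⟨(OCode.zero, 0)⟩
    exact exists_surjective_nat _
  have step : ∀ m (s : {s : (ℕ → List Bool) × ℕ // κ ≤ s.2 ∧ Allow P κ s.1}),
      ∃ s' : {s : (ℕ → List Bool) × ℕ // κ ≤ s.2 ∧ Allow P κ s.1},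
        s.1.2 < s'.1.2 ∧ AgreeB s.1.2 s.1.1 s'.1.1 ∧
        ∀ H', AgreeB s'.1.2 s'.1.1 H' → Allow P s'.1.2 H' →
          V z (e m).1 H' (e m).2 = V z (e m).1 s'.1.1 (e m).2 := by
    rintro m ⟨⟨H, κ'⟩, h1, h2⟩
    obtain ⟨h', κ'', h3, h4, h5, h6⟩ := dec_step z h1 h2 (e m).1 (e m).2
    exact ⟨⟨(h', κ''), h1.trans h3.le, h5⟩, h3, h4, h6⟩
  choose Φ h1 h2 h3 using step
  let s0 : {s : (ℕ → List Bool) × ℕ // κ ≤ s.2 ∧ Allow P κ s.1} :=
    ⟨(fun k => if k < κ then h k else P k, κ), le_rfl, fun k hk => by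
      have : ¬ k < κ := by omega
      simp only [this, if_false]
      exact Inside.self P k⟩
  let st : ℕ → {s : (ℕ → List Bool) × ℕ // κ ≤ s.2 ∧ Allow P κ s.1} :=
    fun m => Nat.rec s0 Φ m
  have hst : ∀ m, st (m + 1) = Φ m (st m) := fun m => rfl
  have hlt : ∀ m, (st m).1.2 < (st (m + 1)).1.2 := fun m => by
    rw [hst]
    exact h1 m (st m)
  have hmono : StrictMono fun m => (st m).1.2 := strictMono_nat_of_lt_succ hlt
  obtain ⟨g, hg⟩ := fusion_limit (fun m => (st m).1.1) (fun m => (st m).1.2) hlt fun m k hk => by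
    have := h2 m (st m) k hk
    rw [← hst] at this
    exact this
  have hgA : Allow P κ g := by
    intro k hk
    have h4 : k < (st (k + 1)).1.2 := (Nat.lt_succ_self k).trans_le hmono.le_apply
    rw [hg (k + 1) k h4]
    exact (st (k + 1)).2.2 k hk
  refine ⟨g, fun k hk => ?_, hgA, fun c n => ?_⟩
  · rw [hg 0 k hk]
    change (if k < κ then h k else P k) = h k
    rw [if_pos hk]
  · obtain ⟨m, hm⟩ := he (c, n)
    have h4 := h3 m (st m)
    rw [← hst, hm] at h4
    have hge : κ ≤ (st (m + 1)).1.2 := (st (m + 1)).2.1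
    refine ⟨(st (m + 1)).1.2, hgA.mono hge, fun H' h5 h6 => ?_⟩
    rw [h4 H' (fun k hk => (h5 k hk).trans (hg (m + 1) k hk)) h6,
      h4 g (hg (m + 1)) (hgA.mono hge)]

/-- the chosen extension -/
noncomputable def gext (z : ℕ → Bool) (P h : ℕ → List Bool) (κ : ℕ) : ℕ → List Bool :=
  (exists_ext z P h κ).choose

theorem gext_spec (z : ℕ → Bool) (P h : ℕ → List Bool) (κ : ℕ) :
    AgreeB κ h (gext z P h κ) ∧ Allow P κ (gext z P h κ) ∧ Dec z P (gext z P h κ) :=
  (exists_ext z P h κ).choose_spec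

/-- a set that is closed under the operations of the construction -/
structure Closed (z : ℕ → Bool) (ec : ℕ → OCode) (A : Set (ℕ → List Bool)) : Prop where
  nil : (fun _ => []) ∈ A
  merge : ∀ P ∈ A, ∀ C ∈ A, merge P C ∈ A
  v : ∀ h ∈ A, ∀ c, V z (ec c) h ∈ A
  ext : ∀ P ∈ A, ∀ h ∈ A, ∀ κ, gext z P h κ ∈ A

theorem exists_closed (z : ℕ → Bool) (ec : ℕ → OCode) : ∃ A, A.Countable ∧ Closed z ec A := by
  obtain ⟨A, h1, h2, h3⟩ := exists_hull (F := ℕ → List Bool) (I := ℕ × Fin 3)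
    (fun i a b _ => match i with
      | (_, 0) => merge a b
      | (n, 1) => V z (ec n) a
      | (n, 2) => gext z a b n) (fun _ => [])
  exact ⟨A, h1, h2, fun P hP C hC => h3 (0, 0) P hP C hC P hP,
    fun h hh c => h3 (c, 1) h hh h hh h hh,
    fun P hP h hh κ => h3 (κ, 2) P hP h hh P hP⟩

/-- one step of the construction -/
theorem avoid_step {z : ℕ → Bool} {ec : ℕ → OCode} {A : Set (ℕ → List Bool)}
    (hA : Closed z ec A) {X : Set (ℕ → Bool)} (hX : IsCompact X)
    (hw : ∀ w ∈ X, ∀ C ∈ A, w ∉ Mg C) {P h C : ℕ → List Bool} (hP : P ∈ A) (hh : h ∈ A)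
    (hC : C ∈ A) (c K D : ℕ) :
    ∃ h' ∈ A, ∃ D' > D, AgreeB D h h' ∧ Allow (merge P C) D h' ∧
      ∀ H', AgreeB D' h' H' → Allow (merge P C) D' H' →
        ∀ w ∈ X, ∃ k ≥ K, Occurs (V z (ec c) H' k) w k := by
  obtain ⟨g1, g2, g3⟩ := gext_spec z (merge P C) h D
  have hgA : gext z (merge P C) h D ∈ A := hA.ext _ (hA.merge P hP C hC) h hh D
  choose d hd1 hd2 using g3 (ec c)
  obtain ⟨t, ht⟩ := hX.elim_finite_subcover
    (fun k => {w : ℕ → Bool | Occurs (V z (ec c) (gext z (merge P C) h D) (K + k)) w (K + k)})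
    (fun k => isOpen_occurs _ _) (fun w hwX => by
      have h1 := hw w hwX _ (hA.v _ hgA c)
      simp only [Mg, Set.mem_ofPred_eq, not_exists, not_forall, not_not] at h1
      obtain ⟨k, hk, hocc⟩ := h1 K
      refine Set.mem_iUnion.2 ⟨k - K, ?_⟩
      have : K + (k - K) = k := by omega
      rw [Set.mem_ofPred_eq, this]
      exact hocc)
  refine ⟨_, hgA, D + 1 + ∑ k ∈ t, d (K + k), by omega, g1, g2, fun H' h1 h2 w hwX => ?_⟩
  obtain ⟨k, hkt, hk⟩ := Set.mem_iUnion₂.1 (ht hwX)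
  refine ⟨K + k, by omega, ?_⟩
  have hle : d (K + k) ≤ D + 1 + ∑ k ∈ t, d (K + k) := by
    have : d (K + k) ≤ ∑ k ∈ t, d (K + k) :=
      Finset.single_le_sum (f := fun k => d (K + k)) (fun _ _ => Nat.zero_le _) hkt
    omega
  rw [hd2 (K + k) H' (fun i hi => h1 i (hi.trans_le hle)) ((hd1 (K + k)).patch h1 h2)]
  exact hk

/-- For every `z` there is a countable set `L` of codes such that for all compact sets `X m` that
are disjoint from the meager sets with a code in `L` some `y` above `z` captures the union of these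
meager sets, but does not capture any point of the sets `X m`. -/
theorem exists_dominate (z : ℕ → Bool) : ∃ L : Set (ℕ → List Bool), L.Countable ∧
    ∀ X : ℕ → Set (ℕ → Bool), (∀ m, IsCompact (X m)) → (∀ m, ∀ w ∈ X m, ∀ C ∈ L, w ∉ Mg C) →
      ∃ y H, TLE z y ∧ Computes y H ∧ (∀ C ∈ L, Mg C ⊆ Mg H) ∧
        ∀ m, ∀ w ∈ X m, w ∉ NN y := by
  classical
  obtain ⟨ec, hec⟩ : ∃ e : ℕ → OCode, Function.Surjective e := by
    have : Nonempty OCode := ⟨OCode.zero⟩
    exact exists_surjective_nat _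
  obtain ⟨A, hAc, hA⟩ := exists_closed z ec
  refine ⟨A, hAc, fun X hX hw => ?_⟩
  obtain ⟨eC, heC⟩ := hAc.exists_eq_range ⟨_, hA.nil⟩
  have heC' : ∀ n, eC n ∈ A := fun n => by
    rw [heC]
    exact Set.mem_range_self n
  obtain ⟨e, he⟩ : ∃ e : ℕ → ℕ × ℕ × ℕ, Function.Surjective e := exists_surjective_nat _
  let Inv : (ℕ → List Bool) × (ℕ → List Bool) × ℕ → Prop := fun s =>
    s.1 ∈ A ∧ s.2.1 ∈ A ∧ Allow s.1 s.2.2 s.2.1
  have step : ∀ j (s : {s // Inv s}), ∃ s' : {s // Inv s},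
      s'.1.1 = merge s.1.1 (eC j) ∧ s.1.2.2 < s'.1.2.2 ∧ AgreeB s.1.2.2 s.1.2.1 s'.1.2.1 ∧
      Allow s'.1.1 s.1.2.2 s'.1.2.1 ∧
      ∀ H', AgreeB s'.1.2.2 s'.1.2.1 H' → Allow s'.1.1 s'.1.2.2 H' →
        ∀ w ∈ X (e j).2.2, ∃ k ≥ (e j).2.1, Occurs (V z (ec (e j).1) H' k) w k := by
    rintro j ⟨⟨P, h, D⟩, h1, h2, h3⟩
    obtain ⟨h', k1, D', k2, k3, k4, k5⟩ :=
      avoid_step hA (hX (e j).2.2) (hw (e j).2.2) h1 h2 (heC' j) (e j).1 (e j).2.1 D
    exact ⟨⟨(merge P (eC j), h', D'), hA.merge P h1 _ (heC' j), k1, k4.mono (le_of_lt k2)⟩, rfl,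
      k2, k3, k4, k5⟩
  choose Φ hΦ1 hΦ2 hΦ3 hΦ4 hΦ5 using step
  let s0 : {s // Inv s} := ⟨(fun _ => [], fun _ => [], 0), hA.nil, hA.nil,
    fun k _ => Inside.self _ k⟩
  let st : ℕ → {s // Inv s} := fun j => Nat.rec s0 Φ j
  have hst : ∀ j, st (j + 1) = Φ j (st j) := fun j => rfl
  let P : ℕ → (ℕ → List Bool) := fun j => (st j).1.1
  let h : ℕ → (ℕ → List Bool) := fun j => (st j).1.2.1
  let D : ℕ → ℕ := fun j => (st j).1.2.2
  have hInv : ∀ j, P j ∈ A ∧ h j ∈ A ∧ Allow (P j) (D j) (h j) := fun j => (st j).2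
  have hP : ∀ j, P (j + 1) = merge (P j) (eC j) := fun j => by
    have := hΦ1 j (st j)
    rw [← hst] at this
    exact this
  have hD : ∀ j, D j < D (j + 1) := fun j => by
    have := hΦ2 j (st j)
    rw [← hst] at this
    exact this
  have hagree : ∀ j, AgreeB (D j) (h j) (h (j + 1)) := fun j => by
    have := hΦ3 j (st j)
    rw [← hst] at this
    exact this
  have hal : ∀ j, Allow (P (j + 1)) (D j) (h (j + 1)) := fun j => by
    have := hΦ4 j (st j)
    rw [← hst] at this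
    exact this
  have havoid : ∀ j, ∀ H', AgreeB (D (j + 1)) (h (j + 1)) H' →
      Allow (P (j + 1)) (D (j + 1)) H' →
        ∀ w ∈ X (e j).2.2, ∃ k ≥ (e j).2.1, Occurs (V z (ec (e j).1) H' k) w k := fun j => by
    have := hΦ5 j (st j)
    rw [← hst] at this
    exact this
  have hDmono : StrictMono D := strictMono_nat_of_lt_succ hD
  obtain ⟨H, hH⟩ := fusion_limit h D hD hagree
  have hPmono : ∀ i j, i ≤ j → ∀ d H', Allow (P j) d H' → Allow (P i) d H' := by
    intro i j hij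
    induction hij with
    | refl => exact fun d H' h1 => h1
    | @step j _ ih =>
      intro d H' h1
      rw [hP] at h1
      exact ih d H' fun k hk => (h1 k hk).trans (inside_merge_left _ _)
  have hallow : ∀ i j, i ≤ j → Allow (P i) (D i) (h j) := by
    intro i j hij
    induction hij with
    | refl => exact (hInv i).2.2
    | @step j hij ih =>
      exact ih.patch (hagree j) (hPmono i (j + 1) (Nat.le_succ_of_le hij) _ _ (hal j))
  have hHallow : ∀ i, Allow (P i) (D i) H := by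
    intro i k hk
    have h1 : k < D (max i (k + 1)) := by
      have h2 := hDmono.le_apply (x := max i (k + 1))
      have h3 := le_max_right i (k + 1)
      omega
    rw [hH (max i (k + 1)) k h1]
    exact hallow i (max i (k + 1)) (le_max_left _ _) k hk
  refine ⟨join z (gr H), H, TLE.join_left _ _,
    TR_of_grf (F := fun k => Encodable.encode (H k)) (TLE.join_right _ _), fun C hC => ?_,
    fun m w hwX hwy => ?_⟩
  · rw [heC] at hC
    obtain ⟨j, rfl⟩ := hC
    refine Mg.mono (K := D (j + 1)) fun k hk => ?_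
    have h1 := hHallow (j + 1) k hk
    rw [hP] at h1
    exact h1.trans (inside_merge_right _ _)
  · obtain ⟨C', hC', N, hN⟩ := mem_NN.1 hwy
    obtain ⟨c0, hc0⟩ := exists_code hC'
    obtain ⟨c, rfl⟩ := hec c0
    have h1 : ∀ n, V z (ec c) H n = C' n := by
      intro n
      refine V_eq ?_
      unfold Val
      rw [hc0]
      exact Part.mem_some _
    obtain ⟨j, hj⟩ := he (c, N, m)
    have h2 := havoid j H (hH (j + 1)) (hHallow (j + 1))
    rw [hj] at h2
    obtain ⟨k, hk, hocc⟩ := h2 w hwX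
    rw [h1] at hocc
    exact hN k hk hocc

end Pool.Agent.Helper56WC
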