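import Mathlib
import Pool.Agent.Helper56_WM.Bound
import Pool.Agent.Helper56_WC.Avoid

/-!
# The game for a family of meager sets
-/

set_option autoImplicit false

namespace Pool.Agent.Helper56WC

open Pool.Agent.Helper25TD Pool.Agent.Helper55AX Pool.Agent.Helper56TB Pool.Agent.Helper56WM

variable {E : Set (ℕ → Bool)} {h : (ℕ → Bool) → Set (ℕ → Bool)}

theorem reach_mono {y y' : ℕ → Bool} (hy : TLE y y') : Reach E h y ⊆ Reach E h y' :=
  fun _ hx => ⟨hx.1, hx.2.mono hy subset_rfl⟩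

theorem turingInvariant_uncovered (E : Set (ℕ → Bool)) (h : (ℕ → Bool) → Set (ℕ → Bool)) :
    TuringInvariant (Uncovered E h) := by
  intro x y hxy hyx hx hy
  exact hx (Captures.mono hy hyx (reach_mono hxy))

/-- If `E` is not meager, then `Uncovered E h` meets every cone. -/
theorem exists_mem_uncovered (hh : ∀ x ∈ E, IsMeagre (h x)) (hE : ¬ IsMeagre E)
    (z : ℕ → Bool) : ∃ t, TLE z t ∧ t ∈ Uncovered E h := by
  obtain ⟨Z, hZ⟩ := exists_sacks
  have step : ∀ y : ℕ → Bool, ∃ y' x : ℕ → Bool, TLE y y' ∧ x ∈ E ∧ x ∉ NN y ∧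
      Captures y' (h x) := by
    intro y
    obtain ⟨x, hxE, hx⟩ : ∃ x ∈ E, x ∉ NN y := by
      by_contra hcon
      push Not at hcon
      exact hE ((isMeagre_NN y).mono hcon)
    obtain ⟨C, hC⟩ := exists_Mg (hh x hxE)
    obtain ⟨zC, hzC⟩ := exists_computes C
    exact ⟨join y zC, x, TLE.join_left _ _, hxE, hx, C, hzC _ (TLE.join_right _ _), hC⟩
  choose F X h1 h2 h3 h4 using step
  let y : ℕ → (ℕ → Bool) := fun n => Nat.rec (join z Z) (fun _ y => F y) n
  have hy : ∀ n, y (n + 1) = F (y n) := fun n => rfl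
  obtain ⟨t, ht1, ht2⟩ := hZ y (TLE.join_right z Z) (fun n => by
    rw [hy]
    exact h1 _)
  refine ⟨t, (TLE.join_left z Z).trans (ht1 0), ?_⟩
  rintro ⟨C, hC, hCS⟩
  obtain ⟨n, C', hC', hCC⟩ := ht2 C hC
  have h5 : Captures t (h (X (y n))) := by
    refine (h4 (y n)).mono ?_ subset_rfl
    have := ht1 (n + 1)
    rwa [hy] at this
  exact h3 (y n) (mem_NN.2 ⟨C', hC', hCC (hCS ⟨h2 (y n), h5⟩)⟩)

theorem isMeagre_biUnion_Mg {L : Set (ℕ → List Bool)} (hL : L.Countable) :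
    IsMeagre (⋃ C ∈ L, Mg C) := by
  have : Countable L := hL
  have h2 : (⋃ C ∈ L, Mg C) = ⋃ C : L, Mg C.1 := by
    ext x
    simp
  rw [h2]
  exact isMeagre_iUnion fun C => isMeagre_Mg _

/-- If every meager set `N` has a sigma-compact set that is disjoint from `N` and meets all `h x`,
`x ∈ E \ N`, then the complement of `Uncovered E h` meets every cone. -/
theorem exists_not_mem_uncovered (hX : ∀ N, IsMeagre N → ∃ X : Set (ℕ → Bool),
      IsSigmaCompact X ∧ Disjoint X N ∧ ∀ x ∈ E, x ∉ N → (h x ∩ X).Nonempty)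
    (z : ℕ → Bool) : ∃ t, TLE z t ∧ t ∉ Uncovered E h := by
  obtain ⟨L, hLc, hL⟩ := exists_dominate z
  obtain ⟨X, ⟨K, hK, hKX⟩, hXd, hXh⟩ := hX _ (isMeagre_biUnion_Mg hLc)
  obtain ⟨y, H, hzy, hH, hLH, hwy⟩ := hL K hK fun m w hw C hC hwC => by
    have h1 : w ∈ X := by
      rw [← hKX]
      exact Set.mem_iUnion.2 ⟨m, hw⟩
    exact Set.disjoint_left.1 hXd h1 (Set.mem_biUnion hC hwC)
  refine ⟨y, hzy, fun hW => hW ⟨H, hH, ?_⟩⟩
  rintro x ⟨hxE, hxy⟩
  have hxN : x ∈ ⋃ C ∈ L, Mg C := by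
    by_contra hxN
    obtain ⟨v, hv1, hv2⟩ := hXh x hxE hxN
    rw [← hKX] at hv2
    obtain ⟨m, hm⟩ := Set.mem_iUnion.1 hv2
    exact hwy m v hm (hxy.subset_NN hv1)
  obtain ⟨C, hC, hxC⟩ := Set.mem_iUnion₂.1 hxN
  exact hLH C hC hxC

/-- If player II wins, then `E` is meager. -/
theorem isMeagre_of_winsII (hh : ∀ x ∈ E, IsMeagre (h x)) (hw : WinsII (Uncovered E h)) :
    IsMeagre E := by
  by_contra hE
  obtain ⟨z, hz⟩ := cone_of_winsII (turingInvariant_uncovered E h) hw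
  obtain ⟨t, ht, ht'⟩ := exists_mem_uncovered hh hE z
  exact hz t ht ht'

/-- Player II wins if and only if `E` is meager. -/
theorem winsII_iff (hh : ∀ x ∈ E, IsMeagre (h x)) :
    WinsII (Uncovered E h) ↔ IsMeagre E := by
  refine ⟨isMeagre_of_winsII hh, fun hE => ?_⟩
  obtain ⟨C, hC⟩ := exists_Mg hE
  obtain ⟨z, hz⟩ := exists_computes C
  exact winsII_of_cone (z := z) fun y hy hW => hW ⟨C, hz y hy, fun x hx => hC hx.1⟩

/-- If player I wins, then there is a meager set `N` such that no sigma-compact set that is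
disjoint from `N` meets all `h x`, `x ∈ E \ N`. -/
theorem exists_isMeagre_of_winsI (hw : WinsI (Uncovered E h)) : ∃ N, IsMeagre N ∧
    ∀ X : Set (ℕ → Bool), IsSigmaCompact X → Disjoint X N →
      ∃ x ∈ E, x ∉ N ∧ Disjoint (h x) X := by
  by_contra hcon
  push Not at hcon
  obtain ⟨z, hz⟩ := cone_of_winsI (turingInvariant_uncovered E h) hw
  obtain ⟨t, ht, ht'⟩ := exists_not_mem_uncovered (E := E) (h := h) (fun N hN => by
    obtain ⟨X, hX1, hX2, hX3⟩ := hcon N hN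
    exact ⟨X, hX1, hX2, fun x hx hxN => Set.not_disjoint_iff_nonempty_inter.1 (hX3 x hx hxN)⟩) z
  exact ht' (hz t ht)

end Pool.Agent.Helper56WC
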