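import Mathlib
import Pool.Agent.Helper56_WC.Main

/-!
# Turing determinacy and families of meager sets

For every set `E` of reals and every family `h` of meager sets the explicit Turing invariant set
`Uncovered E h` has the following properties. Player II wins the game with payoff set
`Uncovered E h` if and only if `E` is meager; and if player I wins this game, then there is a
meager set `N` such that no sigma-compact set of reals outside `N` meets all sets `h x`,
`x ∈ E \ N`.
-/

set_option autoImplicit false

namespace Pool.Agent.Results.MP_917879_lc.WeakFubiniMeager

open Pool.Agent.Helper25TD Pool.Agent.Helper56WC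

/-- A weak Fubini theorem for arbitrary families of meager sets follows from the determinacy of the
game with payoff set `Uncovered E h`. -/
theorem result (E : Set (ℕ → Bool)) (h : (ℕ → Bool) → Set (ℕ → Bool)) :
    TuringInvariant (Uncovered E h) ∧ ((∀ x ∈ E, IsMeagre (h x)) →
      (WinsII (Uncovered E h) ↔ IsMeagre E) ∧
      (WinsI (Uncovered E h) → ∃ N, IsMeagre N ∧ ∀ X : Set (ℕ → Bool), IsSigmaCompact X →
        Disjoint X N → ∃ x ∈ E, x ∉ N ∧ Disjoint (h x) X)) :=
  ⟨turingInvariant_uncovered E h, fun hh => ⟨winsII_iff hh, exists_isMeagre_of_winsI⟩⟩

end Pool.Agent.Results.MP_917879_lc.WeakFubiniMeager
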